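import Pool.Agent.MP_ef83ea_ag.Own

set_option autoImplicit false

namespace Pool.Agent.Results.MP_ef83ea_ag.Demailly

open Pool.Agent.MP_ef83ea_ag Filter Topology

universe u

/-- Demailly's inequality for every finite set of points; r = 3, K = ℂ is the problem. -/
theorem result (K : Type u) [Field K] [Infinite K] (N : ℕ) (hN : 1 ≤ N)
    (S : Finset (Projectivization K (Fin (N + 1) → K))) (hS : S.Nonempty) (r : ℕ) (hr : 1 ≤ r) :
    ∃ w : ℝ, Tendsto (fun m : ℕ => (initDeg (symbPow S m) : ℝ) / m) atTop (𝓝 w) ∧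
      ((initDeg (symbPow S r) : ℝ) + N - 1) / (N + r - 1) ≤ w := by
  obtain ⟨M, rfl⟩ : ∃ M, N = M + 1 := ⟨N - 1, by omega⟩
  obtain ⟨w, h1, h2⟩ := own_main S hS r hr
  refine ⟨w, h1, ?_⟩
  convert h2 using 2 <;> push_cast <;> ring

end Pool.Agent.Results.MP_ef83ea_ag.Demailly
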